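import Mathlib

/-!
Weakly consecutive sequences: the arithmetic reformulation (no carries modulo the divisors of
`lcm(1, …, k)`) and the finite check for small lengths.
-/

namespace Pool.Agent.Lib.MP_537c9d_co

/-- `L k = lcm(1, …, k)` -/
def L : ℕ → ℕ
  | 0 => 1
  | k + 1 => Nat.lcm (L k) (k + 1)

lemma L_pos (k : ℕ) : 0 < L k := by
  induction k with
  | zero => simp [L]
  | succ k ih => exact Nat.lcm_pos ih (Nat.succ_pos k)

lemma dvd_L {k m : ℕ} (h1 : 1 ≤ m) (h2 : m ≤ k) : m ∣ L k := by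
  induction k with
  | zero => omega
  | succ k ih =>
    rcases Nat.lt_or_ge k m with h | h
    · obtain rfl : m = k + 1 := by omega
      exact Nat.dvd_lcm_right _ _
    · exact (ih h).trans (Nat.dvd_lcm_left _ _)

lemma two_mul_L_dvd {k : ℕ} (hk : 2 ≤ k) (n : ℕ) (hn : 2 * n ≤ k) : 2 * L n ∣ L k := by
  induction n with
  | zero => exact dvd_L (by simp [L]) (by simpa [L] using hk)
  | succ n ih =>
    rw [L, ← Nat.lcm_mul_left]
    exact Nat.lcm_dvd (ih (by omega)) (dvd_L (by omega) hn)

lemma le_of_pow_dvd_L {k p e : ℕ} (hp : p.Prime) (he : 1 ≤ e) (h : p ^ e ∣ L k) : p ^ e ≤ k := by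
  induction k with
  | zero =>
    have := Nat.le_of_dvd one_pos h
    have := Nat.one_lt_pow (n := e) (by omega) hp.one_lt
    omega
  | succ k ih =>
    have h0 : L k ≠ 0 := (L_pos k).ne'
    have h1 : Nat.lcm (L k) (k + 1) ≠ 0 := (L_pos (k + 1)).ne'
    rw [L, hp.pow_dvd_iff_le_factorization h1, Nat.factorization_lcm h0 (Nat.succ_ne_zero k),
      Finsupp.sup_apply, le_sup_iff] at h
    rcases h with h | h
    · exact (ih ((hp.pow_dvd_iff_le_factorization h0).2 h)).trans (Nat.le_succ k)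
    · exact Nat.le_of_dvd (Nat.succ_pos k)
        ((hp.pow_dvd_iff_le_factorization (Nat.succ_ne_zero k)).2 h)

/-- the symmetric no-carry condition -/
def R (k x y : ℕ) : Prop := ∀ a, a ∣ L k → x % a + y % a + k % a + 1 = a

lemma R.symm {k x y : ℕ} (h : R k x y) : R k y x := fun a ha => by have := h a ha; omega

lemma R.half {k x y : ℕ} (hk : 2 ≤ k) (h : R k x y) : R (k / 2) (x / 2) (y / 2) := by
  intro a ha
  have h2 : 2 * a ∣ L k := (Nat.mul_dvd_mul_left 2 ha).trans (two_mul_L_dvd hk _ (by omega))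
  have h3 := h _ h2
  have h4 := h 2 (dvd_L (by omega) hk)
  have e : ∀ z : ℕ, z % (2 * a) = 2 * (z / 2 % a) + z % 2 := fun z => by
    rw [Nat.mod_mul]; ring
  rw [e x, e y, e k] at h3
  omega

lemma R.le_of_dvd {k x y a i : ℕ} (h : R k x y) (ha : a ∣ L k) (h1 : 1 ≤ i) (h2 : i ≤ k)
    (hd : a ∣ x + i) : a ≤ k := by
  by_contra hlt
  push Not at hlt
  have h3 := h a ha
  rw [Nat.mod_eq_of_lt hlt] at h3
  have h4 : (x % a + i) % a = 0 := by
    rw [Nat.mod_add_mod]; exact Nat.mod_eq_zero_of_dvd hd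
  rw [Nat.mod_eq_of_lt (by omega)] at h4
  omega

/-- the invariant: `x` is congruent to a small shift modulo all `m ≤ k / 3` -/
def InPlace (k x s : ℕ) : Prop := ∀ m, 1 ≤ m → 3 * m ≤ k → x % m = s % m

/-- Boolean form of the conclusions, for the residues modulo `M` -/
def good (k x y : ℕ) : Bool :=
  ((List.range 3).any fun s => (List.range (k / 3)).all fun m => x % (m + 1) == s % (m + 1)) ||
  ((List.range 3).any fun s => (List.range (k / 3)).all fun m => y % (m + 1) == s % (m + 1))

/-- Boolean form of the final conclusion -/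
def good' (k M x y : ℕ) : Bool :=
  decide (14 ≤ k) || (M == L k && (Nat.gcd (x + 1) M == 1 || Nat.gcd (y + 1) M == 1))

/-- backtracking search over the residues of `x` -/
def chk (k : ℕ) : List ℕ → ℕ → ℕ → Bool
  | [], M, x =>
    ((List.range (k / 3)).all fun m => M % (m + 1) == 0) &&
      good k x (M - 1 - x - k % M) && good' k M x (M - 1 - x - k % M)
  | p :: ps, M, x =>
    let D := (List.range 101).filter fun d => (M * p) % d == 0
    (List.range p).all fun u =>
      (D.any fun d => decide (d ≤ (x + u * M) % d + k % d)) || chk k ps (M * p) (x + u * M)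

/-- the primes used in the search, one for each prime power -/
def steps (k : ℕ) : List ℕ :=
  (([(2, 2), (3, 3), (4, 2), (5, 5), (7, 7), (8, 2), (9, 3), (11, 11), (13, 13), (16, 2), (25, 5),
    (27, 3), (32, 2)] : List (ℕ × ℕ)).filter fun z => decide (z.1 ≤ k)).map Prod.snd

lemma chk_all : ∀ k < 42, (chk k (steps k) 1 0 && (L k % (steps k).prod == 0)) = true := by
  decide +kernel

lemma chk_sound {k x y : ℕ} (h : R k x y) : ∀ (ps : List ℕ) (M : ℕ), M * ps.prod ∣ L k →
    chk k ps M (x % M) = true →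
    ((∃ s ≤ 2, InPlace k x s) ∨ (∃ s ≤ 2, InPlace k y s)) ∧
      (14 ≤ k ∨ Nat.gcd (x + 1) (L k) = 1 ∨ Nat.gcd (y + 1) (L k) = 1) := by
  intro ps
  induction ps with
  | nil =>
    intro M hM hc
    rw [List.prod_nil, mul_one] at hM
    have hy : M - 1 - x % M - k % M = y % M := by have := h M hM; omega
    simp only [chk, Bool.and_eq_true, hy, List.all_eq_true, List.mem_range, beq_iff_eq] at hc
    obtain ⟨⟨h1, h2⟩, h3⟩ := hc
    have key : ∀ z : ℕ, ((List.range 3).any fun s => (List.range (k / 3)).all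
        fun m => z % M % (m + 1) == s % (m + 1)) = true → ∃ s ≤ 2, InPlace k z s := by
      intro z hz
      simp only [List.any_eq_true, List.all_eq_true, List.mem_range, beq_iff_eq] at hz
      obtain ⟨s, hs, hz⟩ := hz
      refine ⟨s, by omega, fun m hm1 hm2 => ?_⟩
      obtain ⟨m, rfl⟩ : ∃ m', m = m' + 1 := ⟨m - 1, by omega⟩
      have hm3 : m < k / 3 := by omega
      rw [← hz m hm3, Nat.mod_mod_of_dvd _ (Nat.dvd_of_mod_eq_zero (h1 m hm3))]
    constructor
    · simp only [good, Bool.or_eq_true] at h2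
      exact h2.imp (key x) (key y)
    · simp only [good', Bool.or_eq_true, Bool.and_eq_true, decide_eq_true_eq, beq_iff_eq] at h3
      rcases h3 with h3 | ⟨rfl, h3⟩
      · exact Or.inl h3
      · right
        have e : ∀ z : ℕ, Nat.gcd (z % L k + 1) (L k) = Nat.gcd (z + 1) (L k) := fun z => by
          conv_rhs => rw [← Nat.mod_add_div z (L k), add_right_comm, Nat.gcd_add_mul_left_left]
        rwa [e x, e y] at h3
  | cons p ps ih =>
    intro M hM hc
    rw [List.prod_cons, ← mul_assoc] at hM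
    have hMp : M * p ∣ L k := (Dvd.intro _ rfl).trans hM
    have hpos : 0 < M * p := Nat.pos_of_dvd_of_pos hMp (L_pos k)
    have hp : 0 < p := Nat.pos_of_mul_pos_left hpos
    simp only [chk, List.all_eq_true, List.mem_range, Bool.or_eq_true, List.any_eq_true,
      List.mem_filter, beq_iff_eq, decide_eq_true_eq] at hc
    have e : x % M + x / M % p * M = x % (M * p) := by rw [Nat.mod_mul]; ring
    rcases hc (x / M % p) (Nat.mod_lt _ hp) with ⟨d, ⟨-, hd⟩, hd'⟩ | hc'
    · exfalso
      have hdd : d ∣ M * p := Nat.dvd_of_mod_eq_zero hd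
      rw [e, Nat.mod_mod_of_dvd _ hdd] at hd'
      have := h d (hdd.trans hMp)
      omega
    · rw [e] at hc'
      exact ih (M * p) hM hc'

lemma base {k x y : ℕ} (hk : k < 42) (h : R k x y) :
    ((∃ s ≤ 2, InPlace k x s) ∨ (∃ s ≤ 2, InPlace k y s)) ∧
      (14 ≤ k ∨ Nat.gcd (x + 1) (L k) = 1 ∨ Nat.gcd (y + 1) (L k) = 1) := by
  have h1 := chk_all k hk
  simp only [Bool.and_eq_true, beq_iff_eq] at h1
  refine chk_sound h (steps k) 1 ?_ ?_
  · rw [one_mul]; exact Nat.dvd_of_mod_eq_zero h1.2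
  · rw [Nat.mod_one]; exact h1.1

end Pool.Agent.Lib.MP_537c9d_co
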