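import Pool.Agent.Lib.MP_537c9d_co.Step

/-!
Weakly consecutive sequences: the structure theorem and the position of the term 1.
-/

namespace Pool.Agent.Lib.MP_537c9d_co

lemma noCarry_contra {k x y m s j : ℕ} (h : R k x y) (hm : m ≤ k) (hsm : s < m)
    (hx : x % m = s % m) (hj1 : 1 ≤ j) (hj : j ≤ s) (hd : m ∣ k + j) : False := by
  have h1 := h m (dvd_L (by omega) hm)
  rw [hx, Nat.mod_eq_of_lt hsm] at h1
  have h4 : (k % m + j) % m = 0 := by
    rw [Nat.mod_add_mod]; exact Nat.mod_eq_zero_of_dvd hd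
  rw [Nat.mod_eq_of_lt (by omega)] at h4
  omega

lemma mod_of_dvd_add {k p j : ℕ} (hj1 : 1 ≤ j) (hj : j ≤ p) (hd : p ∣ k + j) : k % p = p - j := by
  have h0 := Nat.mod_lt k (show 0 < p by omega)
  have h4 : (k % p + j) % p = 0 := by
    rw [Nat.mod_add_mod]; exact Nat.mod_eq_zero_of_dvd hd
  obtain ⟨c, hc⟩ := Nat.dvd_of_mod_eq_zero h4
  have : c = 1 := by
    rcases c with _ | _ | c
    · omega
    · rfl
    · have : p * (c + 1 + 1) = p * c + 2 * p := by ring
      omega
  subst this
  omega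

lemma local_two {n v : ℕ} (hp : n.Prime) (hn : 15 ≤ n) (hv1 : n + 1 ≤ v) (hv2 : v ≤ n + 5)
    (l0 : Loc n 2 v) (l1 : Loc n 2 (v + n)) : False := by
  obtain ⟨t0, -, ht0, h0⟩ := l0.prime hp
  obtain ⟨t1, -, ht1, h1'⟩ := l1.prime hp
  have hodd : n % 2 = 1 := hp.eq_two_or_odd.resolve_left (by omega)
  have h3 : n % 3 ≠ 0 := fun h => by
    have := (Nat.prime_dvd_prime_iff_eq Nat.prime_three hp).1 (Nat.dvd_of_mod_eq_zero h)
    omega
  rcases Nat.mod_two_eq_zero_or_one v with hv' | hv'
  · have := (h0 (v / 2) 2 (by omega) (by omega) (by omega)).2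
    omega
  · rcases (by omega : v = n + 2 ∨ v = n + 4) with h' | h'
    · have := (h1' ((n + 1) / 2) 4 (by omega) (by omega) (by omega)).2
      omega
    · rcases (by omega : n % 3 = 1 ∨ n % 3 = 2) with h'' | h''
      · have := (h1' 3 ((v + n) / 3) (by omega) (by omega) (by omega)).2
        omega
      · have := (h0 3 (v / 3) (by omega) (by omega) (by omega)).2
        omega

lemma shift_le_two {k x y s : ℕ} (h : R k x y) (hk : 42 ≤ k) (hs5 : s ≤ 5)
    (hs : InPlace k x s) : s ≤ 2 := by
  by_contra hs3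
  obtain ⟨n, j, hj1, hj3, hn⟩ : ∃ n j, 1 ≤ j ∧ j ≤ 3 ∧ k + j = 3 * n :=
    ⟨k / 3 + 1, 3 - k % 3, by omega, by omega, by omega⟩
  by_cases hp : n.Prime
  · have hkm : k % n = n - j := mod_of_dvd_add hj1 (by omega) ⟨3, by omega⟩
    have h1 := h n (dvd_L (by omega) (by omega))
    have hT : k / n = 2 := by
      apply Nat.div_eq_of_lt_le <;> omega
    have hs' : ∀ m, 1 ≤ m → m < n → x % m = s % m := fun m h1 h2 => hs m h1 (by omega)
    have l0 := loc_of_R h (Q := n) (by omega) (by omega) (i := n - x % n + 0 * n) (by omega)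
      (by omega) (dvd_first x n (by omega) 0) hs'
    have l1 := loc_of_R h (Q := n) (by omega) (by omega) (i := n - x % n + 1 * n) (by omega)
      (by omega) (dvd_first x n (by omega) 1) hs'
    rw [hT] at l0 l1
    have e1 : n - x % n + 1 * n + s = (n - x % n + 0 * n + s) + n := by ring
    rw [e1] at l1
    exact local_two hp (by omega) (by omega) (by omega) l0 l1
  · have hq : n.minFac.Prime := Nat.minFac_prime (by omega)
    have hq2 := hq.two_le
    have hsq : n.minFac ^ 2 ≤ n := Nat.minFac_sq_le_self (by omega) hp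
    have hle : 3 * n.minFac + 1 ≤ n := by
      by_cases h4 : n.minFac ≤ 4
      · omega
      · nlinarith
    refine noCarry_contra h (m := 3 * n.minFac) (s := s) (j := j) (by omega) (by omega)
      (hs _ (by omega) (by omega)) hj1 (by omega) ?_
    rw [hn]
    exact Nat.mul_dvd_mul_left 3 (Nat.minFac_dvd n)

lemma step_aux {k x y s : ℕ} (h : R k x y) (hk : 42 ≤ k) (hs2 : s ≤ 2)
    (hs : InPlace (k / 2) (x / 2) s) : ∃ s ≤ 2, InPlace k x s := by
  have hb : InPlace k x (2 * s + x % 2) := by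
    refine boot h hk (by omega) fun m hm1 hm2 => ?_
    have h1 : x / 2 ≡ s [MOD m] := hs m hm1 hm2
    have h2 : 2 * (x / 2) + x % 2 ≡ 2 * s + x % 2 [MOD m] :=
      (h1.mul_left 2).add_right _
    rwa [Nat.div_add_mod] at h2
  exact ⟨_, shift_le_two h hk (by omega) hb, hb⟩

theorem structure_thm (k : ℕ) : ∀ x y, R k x y →
    (∃ s ≤ 2, InPlace k x s) ∨ (∃ s ≤ 2, InPlace k y s) := by
  induction k using Nat.strong_induction_on with
  | _ k ih =>
    intro x y h
    by_cases hk : k < 42
    · exact (base hk h).1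
    · rcases ih (k / 2) (by omega) _ _ (h.half (by omega)) with ⟨s, h1, h2⟩ | ⟨s, h1, h2⟩
      · exact Or.inl (step_aux h (by omega) h1 h2)
      · exact Or.inr (step_aux h.symm (by omega) h1 h2)

lemma prime_end {k x y p : ℕ} (h : R k x y) (hp : p.Prime) (hL : p ∣ L k) (hd : p ∣ x + 1) :
    k % p = 0 ∧ y % p = 0 := by
  have h1 := h p hL
  have h2 := mod_of_dvd_add (k := x) (j := 1) le_rfl hp.one_le hd
  omega

lemma two_mul_contra {k x y p i : ℕ} (h : R k x y) (hp : p.Prime) (hk : k = 2 * p) (hp7 : 7 ≤ p)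
    (hi1 : 1 ≤ i) (hi : i ≤ k) (hd : p ∣ x + i) (hw : (p + 1) / 2 ∣ x + i) : False := by
  have hc : Nat.Coprime p ((p + 1) / 2) := Nat.coprime_of_lt_prime (by omega) (by omega) hp
  have h1 := h.le_of_dvd
    (hc.mul_dvd_of_dvd_of_dvd (dvd_L (by omega) (by omega)) (dvd_L (by omega) (by omega)))
    hi1 hi (hc.mul_dvd_of_dvd_of_dvd hd hw)
  have : p * 3 ≤ p * ((p + 1) / 2) := Nat.mul_le_mul_left _ (by omega)
  omega

lemma shift_two_even {k x y : ℕ} (h : R k x y) (hk : 14 ≤ k) (hs : InPlace k x 2)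
    (hk4 : k % 4 = 0) (hk3 : k % 3 = 0) : False := by
  obtain ⟨n, hn⟩ : ∃ n, k + 2 = 2 * n := ⟨k / 2 + 1, by omega⟩
  have hn8 : 8 ≤ n := by omega
  have hnk : n ≤ k := by omega
  have hn2 : n % 2 = 1 := by omega
  have hn3 : n % 3 = 1 := by omega
  clear hk4 hk3
  by_cases hnp : n.Prime
  · have hkm : k % n = n - 2 := mod_of_dvd_add (by omega) (by omega) ⟨2, by omega⟩
    have h1 := h n (dvd_L (by omega) hnk)
    have hdn : n ∣ x + (n - x % n) := by simpa using dvd_first x n (by omega) 0
    have hcase : x % n = 0 ∨ x % n = 1 := by omega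
    clear h1 hkm
    rcases hcase with h0 | h0
    · rw [h0] at hdn
      have hx3 := hs 3 (by omega) (by omega)
      have hc3 : Nat.Coprime 3 n := (Nat.coprime_primes Nat.prime_three hnp).2 (by omega)
      have h5 := h.le_of_dvd
        (hc3.mul_dvd_of_dvd_of_dvd (dvd_L (by omega) (by omega)) (dvd_L (by omega) hnk))
        (i := n - 0) (by omega) (by omega)
        (hc3.mul_dvd_of_dvd_of_dvd (Nat.dvd_of_mod_eq_zero (by omega)) hdn)
      omega
    · rw [h0] at hdn
      have hx2 := hs 2 (by omega) (by omega)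
      have hc3 : Nat.Coprime 2 n := (Nat.coprime_primes Nat.prime_two hnp).2 (by omega)
      have h5 := h.le_of_dvd
        (hc3.mul_dvd_of_dvd_of_dvd (dvd_L (by omega) (by omega)) (dvd_L (by omega) hnk))
        (i := n - 1) (by omega) (by omega)
        (hc3.mul_dvd_of_dvd_of_dvd (Nat.dvd_of_mod_eq_zero (by omega)) hdn)
      omega
  · have hr : n.minFac.Prime := Nat.minFac_prime (by omega)
    have hr2 : n.minFac ≠ 2 := by
      intro h2
      have := Nat.minFac_dvd n
      rw [h2] at this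
      omega
    have hr3 := hr.two_le
    have hsq : n.minFac ^ 2 ≤ n := Nat.minFac_sq_le_self (by omega) hnp
    have hle : 3 * n.minFac ≤ n := by
      have : 3 ≤ n.minFac := by omega
      nlinarith
    refine noCarry_contra h (m := n.minFac) (s := 2) (j := 2) (by omega) (by omega)
      (hs _ (by omega) (by omega)) (by omega) le_rfl ?_
    rw [hn]
    exact Dvd.dvd.mul_left (Nat.minFac_dvd n) 2

lemma final_aux {k x y s : ℕ} (h : R k x y) (hk : 14 ≤ k) (hs2 : s ≤ 2) (hs : InPlace k x s) :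
    Nat.gcd (x + 1) (L k) = 1 ∨ Nat.gcd (y + 1) (L k) = 1 := by
  by_contra hcon
  push Not at hcon
  obtain ⟨p, hp, hpd⟩ := Nat.exists_prime_and_dvd hcon.1
  obtain ⟨q, hq, hqd⟩ := Nat.exists_prime_and_dvd hcon.2
  have hpL := hpd.trans (Nat.gcd_dvd_right _ _)
  have hqL := hqd.trans (Nat.gcd_dvd_right _ _)
  have hpx := hpd.trans (Nat.gcd_dvd_left _ _)
  have hqy := hqd.trans (Nat.gcd_dvd_left _ _)
  obtain ⟨hkp, hyp⟩ := prime_end h hp hpL hpx
  obtain ⟨hkq, hxq⟩ := prime_end h.symm hq hqL hqy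
  have hp2 := hp.two_le
  have hq2 := hq.two_le
  have hne : p ≠ q := by
    rintro rfl
    have := mod_of_dvd_add (k := x) (j := 1) le_rfl hp.one_le hpx
    omega
  have hpq : p * q ∣ k := ((Nat.coprime_primes hp hq).2 hne).mul_dvd_of_dvd_of_dvd
    (Nat.dvd_of_mod_eq_zero hkp) (Nat.dvd_of_mod_eq_zero hkq)
  obtain ⟨c, hc⟩ := hpq
  have hc1 : 1 ≤ c := by
    rcases Nat.eq_zero_or_pos c with rfl | h
    · omega
    · exact h
  have hqc : 2 ≤ q * c := by nlinarith
  have hpc : 2 ≤ p * c := by nlinarith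
  interval_cases s
  · -- shift 0
    have h3 : ¬ 3 * p ≤ k := by
      intro h3
      have h4 := hs p (by omega) h3
      have := mod_of_dvd_add (k := x) (j := 1) le_rfl hp.one_le hpx
      rw [Nat.zero_mod] at h4
      omega
    have hk2 : k = 2 * p := by
      have h5 : q * c < 3 := by
        by_contra h5
        have : p * 3 ≤ p * (q * c) := Nat.mul_le_mul_left _ (by omega)
        have : p * (q * c) = p * q * c := by ring
        omega
      have h6 : q * c = 2 := by omega
      rw [hc, mul_assoc, h6, mul_comm]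
    have hodd : p % 2 = 1 := hp.eq_two_or_odd.resolve_left (by omega)
    refine two_mul_contra h hp hk2 (by omega) (i := p + 1) (by omega) (by omega) ?_ ?_
    · have : x + (p + 1) = (x + 1) + p := by ring
      rw [this]; exact dvd_add hpx dvd_rfl
    · rw [dvd_add_iff_of_mod (hs _ (by omega) (by omega))]
      exact ⟨2, by omega⟩
  · -- shift 1
    have h3 : ¬ 3 * q ≤ k := by
      intro h3
      have h4 := hs q (by omega) h3
      rw [Nat.mod_eq_of_lt (show 1 < q by omega)] at h4
      omega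
    have hk2 : k = 2 * q := by
      have h5 : p * c < 3 := by
        by_contra h5
        have : q * 3 ≤ q * (p * c) := Nat.mul_le_mul_left _ (by omega)
        have : q * (p * c) = p * q * c := by ring
        omega
      have h6 : p * c = 2 := by omega
      rw [hc, mul_right_comm, h6]
    have hodd : q % 2 = 1 := hq.eq_two_or_odd.resolve_left (by omega)
    refine two_mul_contra h hq hk2 (by omega) (i := q) (by omega) (by omega) ?_ ?_
    · exact dvd_add (Nat.dvd_of_mod_eq_zero hxq) dvd_rfl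
    · rw [dvd_add_iff_of_mod (hs _ (by omega) (by omega))]
      exact ⟨2, by omega⟩
  · -- shift 2
    have hk3 : k % 3 = 0 := by
      have hx3 := hs 3 (by omega) (by omega)
      have hk3 := h 3 (dvd_L (by omega) (by omega))
      omega
    have hk4 : k % 4 ≤ 1 := by
      have hx4 := hs 4 (by omega) (by omega)
      have hk4 := h 4 (dvd_L (by omega) (by omega))
      omega
    have h3q : 3 * q ≤ k := by
      by_cases hq3 : q = 3
      · omega
      · have hc3 : Nat.Coprime 3 q := (Nat.coprime_primes Nat.prime_three hq).2 (Ne.symm hq3)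
        exact Nat.le_of_dvd (by omega) (hc3.mul_dvd_of_dvd_of_dvd
          (Nat.dvd_of_mod_eq_zero (by omega)) (Nat.dvd_of_mod_eq_zero hkq))
    have hq2' : q = 2 := by
      have h4 := hs q (by omega) h3q
      by_contra hne
      rw [Nat.mod_eq_of_lt (show 2 < q by omega)] at h4
      omega
    subst hq2'
    exact shift_two_even h hk hs (by omega) (by omega)

theorem gcd_end {k x y : ℕ} (h : R k x y) :
    Nat.gcd (x + 1) (L k) = 1 ∨ Nat.gcd (y + 1) (L k) = 1 := by
  by_cases hk : 14 ≤ k
  · rcases structure_thm k x y h with ⟨s, h1, h2⟩ | ⟨s, h1, h2⟩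
    · exact final_aux h hk h1 h2
    · exact (final_aux h.symm hk h1 h2).symm
  · exact (base (by omega) h).2.resolve_left hk

end Pool.Agent.Lib.MP_537c9d_co
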