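import Pool.Agent.Lib.MP_537c9d_co.Base

/-!
Weakly consecutive sequences: the inductive step and the position of the term 1.
-/

namespace Pool.Agent.Lib.MP_537c9d_co

/-- local hypothesis at the value `v`: the small divisors of `v` divide `Q t` for some `t ≤ T` -/
def Loc (Q T v : ℕ) : Prop := ∃ t, 1 ≤ t ∧ t ≤ T ∧ ∀ m, 1 ≤ m → m < Q → m ∣ v → m ∣ Q * t

lemma Loc.prime {p T v : ℕ} (hp : p.Prime) (h : Loc p T v) :
    ∃ t, 1 ≤ t ∧ t ≤ T ∧ ∀ m w, m < p → v = m * w → 0 < v → m ∣ t ∧ m ≤ t := by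
  obtain ⟨t, h1, h2, h3⟩ := h
  refine ⟨t, h1, h2, fun m w hm hv hv0 => ?_⟩
  have hm0 : 1 ≤ m := by
    rcases Nat.eq_zero_or_pos m with rfl | h
    · simp at hv; omega
    · exact h
  have hc : Nat.Coprime m p := (Nat.coprime_of_lt_prime (by omega) hm hp).symm
  have := hc.dvd_of_dvd_mul_left (h3 m hm0 hm ⟨w, hv⟩)
  exact ⟨this, Nat.le_of_dvd (by omega) this⟩

lemma local_prime {p T v : ℕ} (hp : p.Prime) (hp8 : 8 ≤ p) (hT : T ≤ 5) (hv1 : 1 ≤ v)
    (hv2 : v ≤ p + 5) (h0 : Loc p T v) (h1 : Loc p T (v + p)) (h2 : Loc p T (v + 2 * p)) :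
    v = p := by
  obtain ⟨t0, -, ht0, h0⟩ := h0.prime hp
  obtain ⟨t1, -, ht1, h1⟩ := h1.prime hp
  obtain ⟨t2, -, ht2, h2⟩ := h2.prime hp
  have hodd : p % 2 = 1 := hp.eq_two_or_odd.resolve_left (by omega)
  have h3 : p % 3 ≠ 0 := fun h => by
    have := (Nat.prime_dvd_prime_iff_eq Nat.prime_three hp).1 (Nat.dvd_of_mod_eq_zero h)
    omega
  have hp11 : 11 ≤ p := by omega
  by_contra hne
  rcases Nat.mod_two_eq_zero_or_one v with hv | hv
  · -- `v` even
    have a1 := (h0 (v / 2) 2 (by omega) (by omega) (by omega)).2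
    have a2 := (h0 v 1 (by omega) (by omega) (by omega)).2
    have : v = 2 ∨ v = 4 := by omega
    rcases this with rfl | rfl
    · have := (h2 ((p + 1) / 2) 4 (by omega) (by omega) (by omega)).2
      omega
    · rcases (by omega : p % 3 = 1 ∨ p % 3 = 2) with h | h
      · have := (h2 (2 * ((p + 2) / 3)) 3 (by omega) (by omega) (by omega)).2
        omega
      · have b1 := h1 ((p + 4) / 3) 3 (by omega) (by omega) (by omega)
        have b2 := h1 3 ((p + 4) / 3) (by omega) (by omega) (by omega)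
        obtain rfl : p = 11 := by omega
        obtain ⟨⟨c, hc⟩, hc'⟩ := b1
        obtain ⟨⟨d, hd⟩, -⟩ := b2
        omega
  · -- `v` odd
    by_cases hlt : v < p
    · have := (h1 ((v + p) / 2) 2 (by omega) (by omega) (by omega)).2
      omega
    · have : v = p + 2 ∨ v = p + 4 := by omega
      rcases this with rfl | rfl
      · have := (h1 ((p + 1) / 2) 4 (by omega) (by omega) (by omega)).2
        omega
      · rcases (by omega : p % 3 = 1 ∨ p % 3 = 2) with h | h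
        · have := (h1 (2 * ((p + 2) / 3)) 3 (by omega) (by omega) (by omega)).2
          omega
        · have b1 := h0 ((p + 4) / 3) 3 (by omega) (by omega) (by omega)
          have b2 := h0 3 ((p + 4) / 3) (by omega) (by omega) (by omega)
          obtain rfl : p = 11 := by omega
          obtain ⟨⟨c, hc⟩, hc'⟩ := b1
          obtain ⟨⟨d, hd⟩, -⟩ := b2
          omega

lemma small_check : ∀ Q ∈ [8, 9, 25], ∀ T ∈ [3, 4, 5], ∀ v < Q + 6, 1 ≤ v → ¬ Q ∣ v →
    (Q = 8 → 4 ∣ v) → (Q = 9 → 3 ∣ v) → (Q = 25 → 5 ∣ v) →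
    ∃ j < T, ∀ t < T + 1, 1 ≤ t → ∃ m < Q, 1 ≤ m ∧ m ∣ v + j * Q ∧ ¬ m ∣ Q * t := by
  decide +kernel

lemma local_pow {p e T v : ℕ} (hp : p.Prime) (he : 1 ≤ e) (hQ : 8 ≤ p ^ (e + 1)) (hT3 : 3 ≤ T)
    (hT : T ≤ 5) (hv1 : 1 ≤ v) (hv2 : v ≤ p ^ (e + 1) + 5) (hd : p ^ e ∣ v)
    (h : ∀ j < T, Loc (p ^ (e + 1)) T (v + j * p ^ (e + 1))) : p ^ (e + 1) ∣ v := by
  by_contra hne
  have hp2 := hp.two_le
  by_cases h6 : 6 ≤ p ^ e
  · obtain ⟨w, rfl⟩ := hd
    have hw : ¬ p ∣ w := fun hw => hne (by rw [pow_succ]; exact Nat.mul_dvd_mul_left _ hw)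
    obtain ⟨j, rfl⟩ : ∃ j, T = j + 1 := ⟨T - 1, by omega⟩
    obtain ⟨t, ht1, ht2, ht⟩ := h j (by omega)
    have e1 : p ^ e * w + j * p ^ (e + 1) = p ^ e * (w + j * p) := by ring
    have hw0 : 1 ≤ w := by
      rcases Nat.eq_zero_or_pos w with rfl | h
      · simp at hw
      · exact h
    have hlt : w + j * p < p ^ (e + 1) := by
      apply lt_of_mul_lt_mul_left (a := p ^ e) _ (Nat.zero_le _)
      rw [← e1]
      have : j * p ^ (e + 1) ≤ 4 * p ^ (e + 1) := Nat.mul_le_mul_right _ (by omega)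
      have : 6 * p ^ (e + 1) ≤ p ^ e * p ^ (e + 1) := Nat.mul_le_mul_right _ h6
      omega
    have h2 := ht (w + j * p) (by omega) hlt (by rw [e1]; exact Dvd.intro_left _ rfl)
    have hc : Nat.Coprime (w + j * p) (p ^ (e + 1)) := by
      apply Nat.Coprime.pow_right
      rw [Nat.coprime_add_mul_right_left]
      exact ((Nat.Prime.coprime_iff_not_dvd hp).2 hw).symm
    have h3 := Nat.le_of_dvd (by omega) (hc.dvd_of_dvd_mul_left h2)
    have : j * 2 ≤ j * p := Nat.mul_le_mul_left _ hp2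
    omega
  · have hpe : p ≤ p ^ e := Nat.le_self_pow (by omega) p
    have he3 : e < 3 := by
      by_contra h3
      have : p ^ 3 ≤ p ^ e := Nat.pow_le_pow_right (by omega) (by omega)
      have : 2 ^ 3 ≤ p ^ 3 := Nat.pow_le_pow_left hp2 3
      omega
    have hcases : (p = 2 ∧ e = 2) ∨ (p = 3 ∧ e = 1) ∨ (p = 5 ∧ e = 1) := by
      have hp5 : p ≤ 5 := by omega
      have hp4 : p ≠ 4 := by rintro rfl; exact absurd hp (by decide)
      interval_cases p <;> interval_cases e <;> simp_all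
    have hmem : p ^ (e + 1) ∈ [8, 9, 25] := by
      rcases hcases with ⟨rfl, rfl⟩ | ⟨rfl, rfl⟩ | ⟨rfl, rfl⟩ <;> simp
    have hTm : T ∈ [3, 4, 5] := by
      interval_cases T <;> simp
    obtain ⟨j, hj, hj'⟩ := small_check _ hmem T hTm v (by omega) hv1 hne
      (by rcases hcases with ⟨rfl, rfl⟩ | ⟨rfl, rfl⟩ | ⟨rfl, rfl⟩ <;> simp_all)
      (by rcases hcases with ⟨rfl, rfl⟩ | ⟨rfl, rfl⟩ | ⟨rfl, rfl⟩ <;> simp_all)
      (by rcases hcases with ⟨rfl, rfl⟩ | ⟨rfl, rfl⟩ | ⟨rfl, rfl⟩ <;> simp_all)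
    obtain ⟨t, ht1, ht2, ht⟩ := h j hj
    obtain ⟨m, hm, hm1, hm2, hm3⟩ := hj' t (by omega) ht1
    exact hm3 (ht m hm1 hm hm2)

lemma dvd_add_iff_of_mod {x s m i : ℕ} (h : x % m = s % m) : m ∣ x + i ↔ m ∣ i + s := by
  rw [Nat.dvd_iff_mod_eq_zero, Nat.dvd_iff_mod_eq_zero, Nat.add_mod, h, ← Nat.add_mod, add_comm]

lemma dvd_first (x Q : ℕ) (hQ : 0 < Q) (j : ℕ) : Q ∣ x + (Q - x % Q + j * Q) := by
  have h1 := Nat.mod_lt x hQ
  have h2 := Nat.mod_add_div x Q
  refine ⟨x / Q + 1 + j, ?_⟩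
  have : Q * (x / Q + 1 + j) = Q * (x / Q) + Q + j * Q := by ring
  omega

lemma loc_of_R {k x y Q s i : ℕ} (h : R k x y) (hQ1 : 1 ≤ Q) (hQ : Q ≤ k) (hi1 : 1 ≤ i)
    (hi : i ≤ k) (hd : Q ∣ x + i) (hs : ∀ m, 1 ≤ m → m < Q → x % m = s % m) :
    Loc Q (k / Q) (i + s) := by
  have hg : Nat.gcd (x + i) (L k) ≤ k :=
    h.le_of_dvd (Nat.gcd_dvd_right _ _) hi1 hi (Nat.gcd_dvd_left _ _)
  have hg0 : 0 < Nat.gcd (x + i) (L k) := Nat.gcd_pos_of_pos_right _ (L_pos k)
  obtain ⟨t, ht⟩ : Q ∣ Nat.gcd (x + i) (L k) := Nat.dvd_gcd hd (dvd_L hQ1 hQ)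
  refine ⟨t, ?_, ?_, fun m hm1 hm2 hm => ?_⟩
  · rcases Nat.eq_zero_or_pos t with rfl | h
    · omega
    · exact h
  · rw [Nat.le_div_iff_mul_le hQ1, mul_comm, ← ht]; exact hg
  · rw [← ht]
    exact Nat.dvd_gcd ((dvd_add_iff_of_mod (hs m hm1 hm2)).2 hm) (dvd_L hm1 (by omega))

lemma boot {k x y s : ℕ} (h : R k x y) (hk : 42 ≤ k) (hs5 : s ≤ 5)
    (hs : ∀ m, 1 ≤ m → 3 * m ≤ k / 2 → x % m = s % m) : InPlace k x s := by
  intro m
  induction m using Nat.strong_induction_on with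
  | _ Q ih =>
    intro hQ1 hQ3
    by_cases hsm : 3 * Q ≤ k / 2
    · exact hs Q hQ1 hsm
    have hQ8 : 8 ≤ Q := by omega
    have ih' : ∀ m, 1 ≤ m → m < Q → x % m = s % m := fun m h1 h2 => ih m h2 h1 (by omega)
    have hT3 : 3 ≤ k / Q := (Nat.le_div_iff_mul_le hQ1).2 hQ3
    have hT5 : k / Q ≤ 5 := by
      have : k / Q < 6 := (Nat.div_lt_iff_lt_mul hQ1).2 (by omega)
      omega
    have hr := Nat.mod_lt x hQ1
    have hloc : ∀ j < k / Q, Loc Q (k / Q) (Q - x % Q + s + j * Q) := by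
      intro j hj
      have h1 : (j + 1) * Q ≤ k := (Nat.le_div_iff_mul_le hQ1).1 hj
      have h2 : (j + 1) * Q = j * Q + Q := by ring
      have := loc_of_R h hQ1 (by omega) (i := Q - x % Q + j * Q) (by omega) (by omega)
        (dvd_first x Q hQ1 j) ih'
      rwa [add_right_comm] at this
    have hfin : Q ∣ Q - x % Q + s → x % Q = s % Q := by
      intro hd
      have h1 : Q ∣ x + (Q - x % Q) := by simpa using dvd_first x Q hQ1 0
      have h2 : x + (Q - x % Q) ≡ s + (Q - x % Q) [MOD Q] := by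
        rw [add_comm s]
        exact ((Nat.modEq_zero_iff_dvd).2 h1).trans ((Nat.modEq_zero_iff_dvd).2 hd).symm
      exact Nat.ModEq.add_right_cancel' _ h2
    have hv1 : 1 ≤ Q - x % Q + s := by clear hfin hloc; omega
    have hv2 : Q - x % Q + s ≤ Q + 5 := Nat.add_le_add (Nat.sub_le _ _) hs5
    by_cases hpp : IsPrimePow Q
    · obtain ⟨p, e, hp, he, rfl⟩ := (isPrimePow_nat_iff Q).1 hpp
      apply hfin
      obtain ⟨e, rfl⟩ : ∃ e', e = e' + 1 := ⟨e - 1, by omega⟩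
      rcases Nat.eq_zero_or_pos e with rfl | he0
      · simp only [zero_add, pow_one] at *
        have := local_prime hp hQ8 hT5 (v := p - x % p + s) hv1 hv2
          (by simpa using hloc 0 (by omega)) (by simpa using hloc 1 (by omega))
          (hloc 2 (by omega))
        rw [this]
      · refine local_pow (v := p ^ (e + 1) - x % p ^ (e + 1) + s) hp he0 hQ8 hT3 hT5
          hv1 hv2 ?_ hloc
        have hlt : p ^ e < p ^ (e + 1) := Nat.pow_lt_pow_right hp.one_lt (by omega)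
        have hpos : 1 ≤ p ^ e := Nat.pow_pos hp.pos
        rw [← dvd_add_iff_of_mod (ih' _ hpos hlt)]
        have h1 : p ^ (e + 1) ∣ x + (p ^ (e + 1) - x % p ^ (e + 1)) := by
          simpa using dvd_first x _ hQ1 0
        exact (pow_dvd_pow p (Nat.le_succ e)).trans h1
    · have hp : Q.minFac.Prime := Nat.minFac_prime (by omega)
      obtain ⟨e, b, hb, hQ⟩ := Nat.exists_eq_pow_mul_and_not_dvd (by omega : Q ≠ 0) Q.minFac
        hp.ne_one
      have he : 0 < e := by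
        rcases Nat.eq_zero_or_pos e with rfl | h
        · exfalso
          apply hb
          rw [pow_zero, one_mul] at hQ
          rw [← hQ]; exact Nat.minFac_dvd Q
        · exact h
      have hb1 : b ≠ 1 := by
        rintro rfl
        exact hpp ((isPrimePow_nat_iff Q).2 ⟨_, e, hp, he, by rw [mul_one] at hQ; exact hQ.symm⟩)
      have hb0 : b ≠ 0 := by rintro rfl; exact hb (dvd_zero _)
      have ha1 : 1 < Q.minFac ^ e := Nat.one_lt_pow (by omega) hp.one_lt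
      have hc : Nat.Coprime (Q.minFac ^ e) b :=
        Nat.Coprime.pow_left _ ((Nat.Prime.coprime_iff_not_dvd hp).2 hb)
      generalize Q.minFac ^ e = a at hQ ha1 hc
      have h1 : a < Q := by rw [hQ]; exact lt_mul_of_one_lt_right (by omega) (by omega)
      have h2 : b < Q := by rw [hQ]; exact lt_mul_of_one_lt_left (by omega) ha1
      have := (Nat.modEq_and_modEq_iff_modEq_mul hc).1
        ⟨ih' a (by omega) h1, ih' b (by omega) h2⟩
      rw [hQ]; exact this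

end Pool.Agent.Lib.MP_537c9d_co
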